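import Pool.Agent.X44.GR.PL5

/-!
# The area of self-avoiding polygons in half-planes and other domains: real moments, joint laws

The uniform self-avoiding polygon on `ℤ²` with `2 n` edges through the origin in a domain `D` (a
half-plane with the origin on its boundary, the plane with a slit, the whole plane, or any set in which
the number of polygons is at least `μ^(2m) exp (- A (log m)^s)` for `m` between `n / 2` and `2 n`). The
means of `area^a` times real powers of sizes (width, height, diameter, …) have ratios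
`1 + O((log n)^s / √n)` for `2 n + 2` and `2 n` edges; under the law biased by such a product the joint
law of the area and of maxima over the pairs of vertices changes by at most
`K ((log n)^s ((log n)^s + k') / n)^(1/2)`, and the law of `area / (mean area)` changes by at most
`K (log n)^2 / √n` for the bounded Lipschitz distance.

Proof in outline. Double counting of the pairs (polygon, inserted bump). An insertion changes the area
by one, and the area is at least a quarter of the perimeter: every edge separates an enclosed cell from a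
cell which is not enclosed (for the vertical edges this uses a parity argument), and every cell has four
edges. At most four bumps of a polygon are pivotal for a maximum over the pairs of vertices.
-/

set_option autoImplicit false
set_option linter.unusedVariables false

namespace Pool.Agent.Results.MP_f6626d_co.AreaInDomains

open Filter Topology
open scoped Classical

/-- The `n`-step self-avoiding walks on `ℤ²` from the origin (used to define `μ`). -/
def walks (n : ℕ) : Set (Fin (n + 1) → ℤ × ℤ) :=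
  {w | w 0 = 0 ∧ Function.Injective w ∧ ∀ i : Fin n,
    |(w i.succ).1 - (w i.castSucc).1| + |(w i.succ).2 - (w i.castSucc).2| = 1}

/-- The self-avoiding polygons with `m ≥ 4` edges in `D` through the origin, as closed loops rooted at the
origin, with an orientation (every polygon through the origin is counted twice). -/
def loops (D : Set (ℤ × ℤ)) (m : ℕ) : Set (ZMod m → ℤ × ℤ) :=
  {f | f 0 = 0 ∧ Function.Injective f ∧
    (∀ i : ZMod m, |(f (i + 1)).1 - (f i).1| + |(f (i + 1)).2 - (f i).2| = 1) ∧ ∀ i, f i ∈ D}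

/-- The mean of `g` under the uniform law on the polygons with `2 n` edges in `D` through the origin. -/
noncomputable def mean (D : Set (ℤ × ℤ)) (n : ℕ) (g : (ZMod (2 * n) → ℤ × ℤ) → ℝ) : ℝ :=
  (∑ᶠ f ∈ loops D (2 * n), g f) / ((loops D (2 * n)).ncard : ℝ)

/-- The edge from `f k` to `f (k+1)` is horizontal, joins the columns `x = a` and `x = a + 1`, and
has height larger than `b`: it lies above the unit cell `[a, a+1] × [b, b+1]`. -/
def Above (m : ℕ) (f : ZMod m → ℤ × ℤ) (a b : ℤ) (k : ZMod m) : Prop :=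
  (((f k).1 = a ∧ (f (k + 1)).1 = a + 1) ∨ ((f k).1 = a + 1 ∧ (f (k + 1)).1 = a)) ∧ b < (f k).2

/-- The unit cell `[a, a+1] × [b, b+1]` is enclosed by the polygon: the vertical ray from the cell
upwards crosses an odd number of edges. -/
def Encl (m : ℕ) (f : ZMod m → ℤ × ℤ) (c : ℤ × ℤ) : Prop :=
  Odd (Nat.card {k : ZMod m // Above m f c.1 c.2 k})

/-- The area: the number of unit cells enclosed by the polygon. -/
noncomputable def area {m : ℕ} (f : ZMod m → ℤ × ℤ) : ℝ := (Nat.card {c : ℤ × ℤ // Encl m f c} : ℝ)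

/-- The maximum of `h` over the pairs of vertices of the polygon. -/
noncomputable def pairmax (h : ℤ × ℤ → ℤ × ℤ → ℝ) {m : ℕ} (f : ZMod m → ℤ × ℤ) : ℝ :=
  ⨆ x : ZMod m × ZMod m, h (f x.1) (f x.2)

/-- Gauges: functions of two sites with `h(0, 0) ≤ 1` which are 1-Lipschitz for the `ℓ¹` distance. -/
structure Gauge (h : ℤ × ℤ → ℤ × ℤ → ℝ) : Prop where
  zero : h 0 0 ≤ 1
  lip : ∀ x y x' y' : ℤ × ℤ, |h x y - h x' y'| ≤
    |(x.1 : ℝ) - x'.1| + |(x.2 : ℝ) - x'.2| + |(y.1 : ℝ) - y'.1| + |(y.2 : ℝ) - y'.2|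

/-- The product of `area^a` and of the powers `q i` of the sizes `max 1 (pairmax (h i) f)`. -/
noncomputable def weight {k : ℕ} (a : ℝ) (h : Fin k → ℤ × ℤ → ℤ × ℤ → ℝ) (q : Fin k → ℝ) {m : ℕ}
    (f : ZMod m → ℤ × ℤ) : ℝ := area f ^ a * ∏ i, (max 1 (pairmax (h i) f)) ^ q i

/-- Stability of the moments and of the joint laws of the area and of sizes at `n` in `D`, with the
constant `K`, the exponent `s`, for `k` gauges and exponents bounded by `P`:
* `moment`: the means of `area^a ∏ (size i)^(q i)` for `2 n + 2` and `2 n` edges have the ratio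
  `1 + O(K (log n)^s / √n)`;
* `law`: under the law biased by `area^a ∏ (size i)^(q i)`, the mean of every function `g` with values in
  `[0, 1]` of the area and of the maxima over pairs of `k'` arbitrary functions, `1/n`-Lipschitz in the
  area, changes at most by `K ((log n)^s ((log n)^s + k') / n)^(1/2)`. -/
structure Stable (K : ℝ) (s k : ℕ) (P : ℝ) (D : Set (ℤ × ℤ)) (n : ℕ) : Prop where
  moment : ∀ (a : ℝ) (h : Fin k → ℤ × ℤ → ℤ × ℤ → ℝ) (q : Fin k → ℝ), |a| ≤ P → (∀ i, Gauge (h i)) →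
    (∀ i, |q i| ≤ P) →
    |mean D (n + 1) (weight a h q) / mean D n (weight a h q) - 1| ≤ K * (Real.log n ^ s / √n)
  law : ∀ (a : ℝ) (h : Fin k → ℤ × ℤ → ℤ × ℤ → ℝ) (q : Fin k → ℝ), |a| ≤ P → (∀ i, Gauge (h i)) →
    (∀ i, |q i| ≤ P) → ∀ (k' : ℕ) (h' : Fin k' → ℤ × ℤ → ℤ × ℤ → ℝ) (g : ℝ → (Fin k' → ℝ) → ℝ),
    (∀ x t, 0 ≤ g x t ∧ g x t ≤ 1) → (∀ x y t, |g x t - g y t| ≤ |x - y| / n) →
    |mean D (n + 1) (fun f => weight a h q f * g (area f) (fun i => pairmax (h' i) f)) /
        mean D (n + 1) (weight a h q) -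
      mean D n (fun f => weight a h q f * g (area f) (fun i => pairmax (h' i) f)) /
        mean D n (weight a h q)| ≤
      K * √((Real.log n ^ s + k') * Real.log n ^ s / n)

lemma rate_two {n : ℕ} (hn : 2 ≤ n) {K : ℝ} (hK : 0 ≤ K) {l : ℝ} (hl : 1 ≤ l) :
    K * √((l + ((0 : ℕ) : ℝ)) * l / n) ≤ K * (l / √n) := by
  have hnp : (0 : ℝ) < n := by exact_mod_cast (by omega : 0 < n)
  apply mul_le_mul_of_nonneg_left _ hK
  rw [Nat.cast_zero, add_zero, ← pow_two, Real.sqrt_div (by positivity), Real.sqrt_sq (by linarith)]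

/-- the mean of a nonnegative function -/
lemma mean_mono {D : Set (ℤ × ℤ)} {n : ℕ} (hfin : (loops D (2 * n)).Finite)
    {g g' : (ZMod (2 * n) → ℤ × ℤ) → ℝ} (h : ∀ f ∈ loops D (2 * n), g f ≤ g' f) :
    mean D n g ≤ mean D n g' := by
  unfold mean
  apply div_le_div_of_nonneg_right _ (Nat.cast_nonneg _)
  rw [finsum_mem_eq_finite_toFinset_sum _ hfin, finsum_mem_eq_finite_toFinset_sum _ hfin]
  exact Finset.sum_le_sum (fun f hf => h f ((Set.Finite.mem_toFinset hfin).1 hf))

lemma mean_const {D : Set (ℤ × ℤ)} {n : ℕ} (hfin : (loops D (2 * n)).Finite)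
    (hne : (loops D (2 * n)).Nonempty) (c : ℝ) : mean D n (fun _ => c) = c := by
  unfold mean
  rw [finsum_mem_eq_finite_toFinset_sum _ hfin, Finset.sum_const, nsmul_eq_mul,
    ← Set.ncard_eq_toFinset_card _ hfin]
  have : (0 : ℝ) < ((loops D (2 * n)).ncard : ℝ) := by
    exact_mod_cast (Set.ncard_pos hfin).2 hne
  field_simp

lemma mean_mul {D : Set (ℤ × ℤ)} {n : ℕ} (hfin : (loops D (2 * n)).Finite)
    (g : (ZMod (2 * n) → ℤ × ℤ) → ℝ) (c : ℝ) : mean D n (fun f => c * g f) = c * mean D n g := by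
  unfold mean
  rw [finsum_mem_eq_finite_toFinset_sum _ hfin, finsum_mem_eq_finite_toFinset_sum _ hfin,
    ← Finset.mul_sum, mul_div_assoc]

lemma mean_sub {D : Set (ℤ × ℤ)} {n : ℕ} (hfin : (loops D (2 * n)).Finite)
    (g g' : (ZMod (2 * n) → ℤ × ℤ) → ℝ) :
    mean D n g - mean D n g' = mean D n (fun f => g f - g' f) := by
  unfold mean
  rw [finsum_mem_eq_finite_toFinset_sum _ hfin, finsum_mem_eq_finite_toFinset_sum _ hfin,
    finsum_mem_eq_finite_toFinset_sum _ hfin, Finset.sum_sub_distrib, sub_div]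

lemma abs_mean {D : Set (ℤ × ℤ)} {n : ℕ} (hfin : (loops D (2 * n)).Finite)
    (g : (ZMod (2 * n) → ℤ × ℤ) → ℝ) : |mean D n g| ≤ mean D n (fun f => |g f|) := by
  unfold mean
  have h0 : (0 : ℝ) ≤ ((loops D (2 * n)).ncard : ℝ) := Nat.cast_nonneg _
  rw [finsum_mem_eq_finite_toFinset_sum _ hfin, finsum_mem_eq_finite_toFinset_sum _ hfin, abs_div,
    abs_of_nonneg h0]
  apply div_le_div_of_nonneg_right _ (Nat.cast_nonneg _)
  exact Finset.abs_sum_le_sum_abs _ _

lemma loops_finite (D : Set (ℤ × ℤ)) {n : ℕ} (hn : 1 ≤ n) : (loops D (2 * n)).Finite := by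
  obtain ⟨M, rfl⟩ : ∃ M, n = M + 1 := ⟨n - 1, by omega⟩
  have h2 := Pool.Agent.X44.GR.PL.loops_image D (2 * M + 1)
  have h3 : loops D (2 * (M + 1)) = Pool.Agent.X44.GR.PL.loops D (2 * M + 1 + 1) := rfl
  rw [h3, h2]
  exact (Finset.finite_toSet _).image _

/-- **Theorem.** Let `μ = lim c_n^(1/n)`, `c_n` the number of all `n`-step self-avoiding walks on `ℤ²`,
`P` real and `k` a number of gauges. Let `H` be the half plane `{(x, y) : y > 0, or y = 0 and x ≥ 0}`.
(1) For all `A` and `s ≥ 2` there is `K` such that for every `D ⊆ ℤ²` and `n ≥ 2` with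
`#(loops D (2 m)) ≥ μ^(2m) exp (- A (log m)^s)` for all `m` with `n/2 ≤ m ≤ 2n`: `Stable K s k P D n`.
(2) There is `K` with `Stable K 2 k P D n` for every `n ≥ 3` and every `D` which contains `H`.
(3) There is `K` such that for such `D`, all `n ≥ 3` and `|p| ≤ P` the ratio of the means of
`area^p` for `2 n + 2` and for `2 n` edges is `1` up to the error `K (log n)^2 / √n`.
(4) There is `K` such that for such `D` and `n ≥ 3` and all functions `g` with values in `[0, 1]` and the
Lipschitz constant `1` the means of `g (area / (mean area))` for `2 n + 2` and for `2 n` edges (each with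
its own mean area in `D`) differ at most by `K (log n)^2 / √n`.
(5) For every polygon with `m ≥ 4` edges the area is at least `m / 4`. -/
theorem result : ∃ μ : ℝ, 0 < μ ∧
    Tendsto (fun n : ℕ => ((walks n).ncard : ℝ) ^ (1 / (n : ℝ))) atTop (𝓝 μ) ∧
    (∀ P : ℝ,
    (∀ (k : ℕ) (A : ℝ) (s : ℕ), 2 ≤ s → ∃ K : ℝ, ∀ (D : Set (ℤ × ℤ)) (n : ℕ), 2 ≤ n →
      (∀ m : ℕ, n ≤ 2 * m → m ≤ 2 * n →
        μ ^ (2 * m) * Real.exp (-(A * Real.log m ^ s)) ≤ ((loops D (2 * m)).ncard : ℝ)) →
      Stable K s k P D n) ∧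
    (∀ k : ℕ, ∃ K : ℝ, ∀ D : Set (ℤ × ℤ), {x : ℤ × ℤ | 0 < x.2 ∨ (x.2 = 0 ∧ 0 ≤ x.1)} ⊆ D →
      ∀ n : ℕ, 3 ≤ n → Stable K 2 k P D n) ∧
    (∃ K : ℝ, ∀ D : Set (ℤ × ℤ), {x : ℤ × ℤ | 0 < x.2 ∨ (x.2 = 0 ∧ 0 ≤ x.1)} ⊆ D →
      ∀ n : ℕ, 3 ≤ n → ∀ p : ℝ, |p| ≤ P →
      |mean D (n + 1) (fun f => area f ^ p) / mean D n (fun f => area f ^ p) - 1| ≤
        K * (Real.log n ^ 2 / √n))) ∧
    (∃ K : ℝ, ∀ D : Set (ℤ × ℤ), {x : ℤ × ℤ | 0 < x.2 ∨ (x.2 = 0 ∧ 0 ≤ x.1)} ⊆ D →
      ∀ n : ℕ, 3 ≤ n → ∀ g : ℝ → ℝ, (∀ x, 0 ≤ g x ∧ g x ≤ 1) → (∀ x y, |g x - g y| ≤ |x - y|) →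
      |mean D (n + 1) (fun f => g (area f / mean D (n + 1) area)) -
        mean D n (fun f => g (area f / mean D n area))| ≤ K * (Real.log n ^ 2 / √n)) ∧
    (∀ (D : Set (ℤ × ℤ)) (m : ℕ), 4 ≤ m → ∀ f ∈ loops D m, (m : ℝ) / 4 ≤ area f) := by
  -- the general statement
  have gen : ∀ (P : ℝ) (k : ℕ) (A : ℝ) (s : ℕ), 2 ≤ s → ∃ K : ℝ, 0 ≤ K ∧ ∀ (D : Set (ℤ × ℤ)) (n : ℕ),
      2 ≤ n → Pool.Agent.X44.GR.PL.Low A s _root_.H981.mu D n → Stable K s k P D n := by
    intro P k A s hs
    obtain ⟨K, hK, h⟩ := Pool.Agent.X44.GR.PL.sizes A 8 (2 * Pool.Agent.X44.GR.S.Ac s) |P|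
      (by norm_num) (abs_nonneg P) s hs (k + 1)
    have hq' : ∀ (a : ℝ) (q : Fin k → ℝ), |a| ≤ P → (∀ i, |q i| ≤ P) →
        ∀ i : Fin (k + 1), |(Fin.cons a q : Fin (k + 1) → ℝ) i| ≤ |P| := by
      intro a q ha hq i
      refine Fin.cases ?_ (fun i => ?_) i
      · exact ha.trans (le_abs_self P)
      · exact (hq i).trans (le_abs_self P)
    have hw : ∀ (a : ℝ) (g : Fin k → ℤ × ℤ → ℤ × ℤ → ℝ) (q : Fin k → ℝ) (m : ℕ),
        Pool.Agent.X44.GR.PL.prodX (Pool.Agent.X44.GR.PL.fam g) (Fin.cons a q) m = weight a g q := by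
      intro a g q m
      funext f
      exact Pool.Agent.X44.GR.PL.prod_fam g a q m f
    have hl2 : 0 < Real.log 2 ^ s := pow_pos (Real.log_pos (by norm_num)) s
    obtain ⟨C, hC⟩ : ∃ C : ℝ, C = 5 + 8 / Real.log 2 ^ s := ⟨_, rfl⟩
    have hC1 : 1 ≤ C := by
      have : 0 ≤ 8 / Real.log 2 ^ s := by positivity
      linarith
    refine ⟨C * K, by positivity, fun D n hn hlow => ⟨fun a g q ha hg hq => ?_,
      fun a q hq ha hg hqP k' h' f hf hfl => ?_⟩⟩
    · have h1 := (h D n hn hlow (Pool.Agent.X44.GR.PL.fam g) (Fin.cons a q)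
        (Pool.Agent.X44.GR.PL.good_fam (fun i => ⟨(hg i).zero, (hg i).lip⟩) hs (by omega))
        (hq' a q ha hq)).1
      rw [hw, hw] at h1
      refine h1.trans ?_
      have h2 : 0 ≤ Real.log (n : ℝ) ^ s / √n :=
        div_nonneg (pow_nonneg (Real.log_natCast_nonneg n) s) (Real.sqrt_nonneg _)
      have h3 : 0 ≤ K * (Real.log (n : ℝ) ^ s / √n) := mul_nonneg hK h2
      calc _ = 1 * (K * (Real.log (n : ℝ) ^ s / √n)) := by ring
        _ ≤ C * (K * (Real.log (n : ℝ) ^ s / √n)) := mul_le_mul_of_nonneg_right hC1 h3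
        _ = _ := by ring
    · have h1 := (h D n hn hlow (Pool.Agent.X44.GR.PL.fam q) (Fin.cons a hq)
        (Pool.Agent.X44.GR.PL.good_fam (fun i => ⟨(hg i).zero, (hg i).lip⟩) hs (by omega))
        (hq' a hq ha hqP)).2 (8 + 4 * k')
        (fun m w => f (Pool.Agent.X44.GR.PL.arX m w) (fun i => Pool.Agent.X44.GR.PL.pairmax (h' i) w))
        (by positivity) (fun m w => hf _ _) (Pool.Agent.X44.GR.PL.infl_area h' f hf hn hfl)
      unfold Pool.Agent.X44.GR.PL.bmean at h1
      rw [hw, hw] at h1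
      refine h1.trans ?_
      have hn' : (2 : ℝ) ≤ n := by exact_mod_cast hn
      have hl : Real.log 2 ^ s ≤ Real.log (n : ℝ) ^ s :=
        pow_le_pow_left₀ (Real.log_nonneg (by norm_num)) (Real.log_le_log (by norm_num) hn') s
      obtain ⟨l, hle⟩ : ∃ l : ℝ, l = Real.log (n : ℝ) ^ s := ⟨_, rfl⟩
      rw [← hle] at hl ⊢
      have hl0 : 0 < l := lt_of_lt_of_le hl2 hl
      have hk : (0 : ℝ) ≤ k' := Nat.cast_nonneg k'
      have h2 : l + (8 + 4 * k') ≤ C * (l + k') := by
        have h3 : 8 ≤ 8 / Real.log 2 ^ s * l := by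
          rw [div_mul_eq_mul_div, le_div_iff₀ hl2]
          linarith
        have h4 : 0 ≤ 8 / Real.log 2 ^ s * k' := by positivity
        rw [hC]
        nlinarith
      have h3 : √((l + (8 + 4 * k')) * l / n) ≤ C * √((l + k') * l / n) := by
        have e : C = √(C ^ 2) := (Real.sqrt_sq (by linarith)).symm
        rw [e, ← Real.sqrt_mul (by positivity)]
        apply Real.sqrt_le_sqrt
        rw [mul_div_assoc', ← mul_assoc]
        apply div_le_div_of_nonneg_right _ (Nat.cast_nonneg n)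
        apply mul_le_mul_of_nonneg_right _ hl0.le
        have h5 : 0 ≤ C * (l + k') := by positivity
        calc l + (8 + 4 * k') ≤ C * (l + k') := h2
          _ = 1 * (C * (l + k')) := by ring
          _ ≤ C * (C * (l + k')) := mul_le_mul_of_nonneg_right hC1 h5
          _ = _ := by ring
      calc K * √((l + (8 + 4 * k')) * l / n) ≤ K * (C * √((l + k') * l / n)) :=
            mul_le_mul_of_nonneg_left h3 hK
        _ = _ := by ring
  obtain ⟨A, hA, hhalf⟩ := Pool.Agent.X44.GR.PL.low_half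
  have hP2 : ∀ (P : ℝ) (k : ℕ), ∃ K : ℝ, 0 ≤ K ∧ ∀ D : Set (ℤ × ℤ),
      {x : ℤ × ℤ | 0 < x.2 ∨ (x.2 = 0 ∧ 0 ≤ x.1)} ⊆ D → ∀ n : ℕ, 3 ≤ n → Stable K 2 k P D n := by
    intro P k
    obtain ⟨K2, hK2, hcl⟩ := gen P k A 2 le_rfl
    exact ⟨K2, hK2, fun D hD n hn => hcl D n (by omega) (hhalf D hD n hn)⟩
  have hlow : ∀ (D : Set (ℤ × ℤ)) (m : ℕ), 4 ≤ m → ∀ f ∈ loops D m, (m : ℝ) / 4 ≤ area f := by
    intro D m hm f hf
    have h1 := Pool.Agent.X44.GR.PL.area_lower hm (f := f) ⟨hf.1, hf.2.1, hf.2.2.1⟩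
    have h2 : (m : ℝ) ≤ 4 * area f := by
      have h3 : (m : ℝ) ≤ 4 * ((Pool.Agent.H924P.area m f : ℕ) : ℝ) := by exact_mod_cast h1
      exact h3
    linarith
  have hpow : ∀ P : ℝ, ∃ K : ℝ, 0 ≤ K ∧ ∀ D : Set (ℤ × ℤ),
      {x : ℤ × ℤ | 0 < x.2 ∨ (x.2 = 0 ∧ 0 ≤ x.1)} ⊆ D → ∀ n : ℕ, 3 ≤ n → ∀ p : ℝ, |p| ≤ P →
      |mean D (n + 1) (fun f => area f ^ p) / mean D n (fun f => area f ^ p) - 1| ≤
        K * (Real.log n ^ 2 / √n) := by
    intro P
    obtain ⟨K, hK, h⟩ := hP2 P 0
    refine ⟨K, hK, fun D hD n hn p hp => ?_⟩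
    have h1 := (h D hD n hn).moment p (fun i => i.elim0) (fun i => i.elim0) hp (fun i => i.elim0)
      (fun i => i.elim0)
    have e : ∀ m : ℕ, mean D m (weight (k := 0) p (fun i => i.elim0) (fun i => i.elim0)) =
        mean D m (fun f => area f ^ p) := by
      intro m
      unfold mean weight
      simp only [Finset.univ_eq_empty, Finset.prod_empty, mul_one]
    rw [e, e] at h1
    exact h1
  refine ⟨_root_.H981.mu, _root_.H981.mu_pos, ?_, fun P =>
    ⟨fun k A s hs => ?_, fun k => ?_, ?_⟩, ?_, hlow⟩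
  · refine Pool.Agent.X44.GR.V.tendsto_mu.congr (fun n => ?_)
    congr 3
    ext w
    constructor
    · rintro ⟨h1, h2, h3, _⟩
      exact ⟨h1, h2, h3⟩
    · rintro ⟨h1, h2, h3⟩
      exact ⟨h1, h2, h3, fun _ => Set.mem_univ _⟩
  · obtain ⟨K, hK, h⟩ := gen P k A s hs
    exact ⟨K, fun D n hn hl => h D n hn hl⟩
  · obtain ⟨K, hK, h⟩ := hP2 P k
    exact ⟨K, h⟩
  · obtain ⟨K, hK, h⟩ := hpow P
    exact ⟨K, h⟩
  · obtain ⟨K, hK, h⟩ := hP2 0 0
    obtain ⟨K1, hK1, h1⟩ := hpow 1
    refine ⟨2 * K + K1, fun D hD n hn g hg hgl => ?_⟩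
    have hn' : (3 : ℝ) ≤ n := by exact_mod_cast hn
    have hnp : (0 : ℝ) < n := by linarith
    have hne : ∀ m : ℕ, n ≤ 2 * m → m ≤ 2 * n → (loops D (2 * m)).Nonempty := by
      intro m g1 g2
      have h2 := hhalf D hD n hn m g1 g2
      have h3 : (0 : ℝ) < ((loops D (2 * m)).ncard : ℝ) := lt_of_lt_of_le
        (mul_pos (pow_pos _root_.H981.mu_pos _) (Real.exp_pos _)) h2
      have h4 : 0 < (loops D (2 * m)).ncard := by exact_mod_cast h3
      exact Set.nonempty_of_ncard_ne_zero h4.ne'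
    have f0 := loops_finite D (n := n) (by omega)
    have f1 := loops_finite D (n := n + 1) (by omega)
    have n0 := hne n (by omega) (by omega)
    have n1 := hne (n + 1) (by omega) (by omega)
    have a0 : (n : ℝ) / 2 ≤ mean D n area := by
      rw [← mean_const f0 n0 ((n : ℝ) / 2)]
      refine mean_mono f0 (fun f hf => ?_)
      have := hlow D (2 * n) (by omega) f hf
      push_cast at this
      linarith
    have a1 : ((n : ℝ) + 1) / 2 ≤ mean D (n + 1) area := by
      rw [← mean_const f1 n1 (((n : ℝ) + 1) / 2)]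
      refine mean_mono f1 (fun f hf => ?_)
      have := hlow D (2 * (n + 1)) (by omega) f hf
      push_cast at this
      linarith
    obtain ⟨A0, hA0⟩ : ∃ A0 : ℝ, A0 = mean D n area := ⟨_, rfl⟩
    obtain ⟨A1, hA1⟩ : ∃ A1 : ℝ, A1 = mean D (n + 1) area := ⟨_, rfl⟩
    rw [← hA0] at a0 ⊢
    rw [← hA1] at a1 ⊢
    have p0 : 0 < A0 := by linarith
    have p1 : 0 < A1 := by linarith
    obtain ⟨l, hl⟩ : ∃ l : ℝ, l = Real.log (n : ℝ) ^ 2 := ⟨_, rfl⟩
    have hl1 : 1 ≤ l := by rw [hl]; exact one_le_pow₀ (Pool.Agent.H739K.RATE.one_le_log hn)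
    -- the same scale
    have h2 := (h D hD n hn).law 0 (fun i => i.elim0) (fun i => i.elim0) (by rw [abs_zero])
      (fun i => i.elim0) (fun i => i.elim0) 0 (fun i => i.elim0) (fun x _ => g (x / A0) / 2)
      (fun x t => by have := hg (x / A0); constructor <;> linarith [this.1, this.2])
      (fun x y t => by
        rw [← sub_div, abs_div, abs_of_pos (by norm_num : (0 : ℝ) < 2)]
        have h3 := hgl (x / A0) (y / A0)
        rw [← sub_div, abs_div, abs_of_pos p0] at h3
        calc |g (x / A0) - g (y / A0)| / 2 ≤ |x - y| / A0 / 2 := by linarith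
          _ = |x - y| / (A0 * 2) := by rw [div_div]
          _ ≤ |x - y| / n := by
              apply div_le_div_of_nonneg_left (abs_nonneg _) hnp
              linarith)
    have e1 : ∀ m : ℕ, (loops D (2 * m)).Finite → (loops D (2 * m)).Nonempty →
        mean D m (weight (k := 0) 0 (fun i => i.elim0) (fun i => i.elim0)) = 1 := by
      intro m hm hmne
      rw [← mean_const hm hmne 1]
      unfold mean weight
      simp only [Finset.univ_eq_empty, Finset.prod_empty, mul_one, Real.rpow_zero]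
    have e2 : ∀ m : ℕ, (loops D (2 * m)).Finite →
        mean D m (fun f => weight (k := 0) 0 (fun i => i.elim0) (fun i => i.elim0) f *
        (g (area f / A0) / 2)) = 1 / 2 * mean D m (fun f => g (area f / A0)) := by
      intro m hm
      rw [← mean_mul hm]
      unfold mean weight
      congr 1
      refine finsum_mem_congr rfl (fun f hf => ?_)
      simp only [Finset.univ_eq_empty, Finset.prod_empty, mul_one, Real.rpow_zero]
      ring
    rw [e1 _ f0 n0, e1 _ f1 n1, div_one, div_one, e2 _ f0, e2 _ f1] at h2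
    have h3 : |mean D (n + 1) (fun f => g (area f / A0)) - mean D n (fun f => g (area f / A0))| ≤
        2 * (K * (l / √n)) := by
      have h4 := h2.trans (rate_two (by omega) hK (by rw [← hl]; exact hl1))
      rw [← mul_sub, abs_mul, abs_of_pos (by norm_num : (0 : ℝ) < 1 / 2), ← hl] at h4
      linarith
    -- change of the scale
    have h4 : |mean D (n + 1) (fun f => g (area f / A1)) - mean D (n + 1) (fun f => g (area f / A0))| ≤
        K1 * (l / √n) := by
      rw [mean_sub f1]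
      refine (abs_mean f1 _).trans ?_
      have h5 : mean D (n + 1) (fun f => |g (area f / A1) - g (area f / A0)|) ≤
          mean D (n + 1) (fun f => |1 / A1 - 1 / A0| * area f) := by
        refine mean_mono f1 (fun f hf => ?_)
        refine (hgl _ _).trans (le_of_eq ?_)
        have h6 : 0 ≤ area f := by unfold area; positivity
        rw [show area f / A1 - area f / A0 = (1 / A1 - 1 / A0) * area f by ring, abs_mul,
          abs_of_nonneg h6]
      refine h5.trans ?_
      rw [mean_mul f1, ← hA1]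
      have h6 := h1 D hD n hn 1 (by rw [abs_one])
      simp only [Real.rpow_one] at h6
      have h7 : mean D (n + 1) (fun f => area f) = A1 := hA1.symm
      have h8 : mean D n (fun f => area f) = A0 := hA0.symm
      rw [h7, h8, ← hl] at h6
      calc |1 / A1 - 1 / A0| * A1 = |(1 / A1 - 1 / A0) * A1| := by rw [abs_mul, abs_of_pos p1]
        _ = |A1 / A0 - 1| := by
            rw [abs_sub_comm (A1 / A0) 1]
            congr 1
            field_simp
        _ ≤ _ := h6
    rw [← hl]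
    calc |mean D (n + 1) (fun f => g (area f / A1)) - mean D n (fun f => g (area f / A0))|
        ≤ |mean D (n + 1) (fun f => g (area f / A1)) - mean D (n + 1) (fun f => g (area f / A0))| +
          |mean D (n + 1) (fun f => g (area f / A0)) - mean D n (fun f => g (area f / A0))| :=
          abs_sub_le _ _ _
      _ ≤ K1 * (l / √n) + 2 * (K * (l / √n)) := add_le_add h4 h3
      _ = _ := by ring

end Pool.Agent.Results.MP_f6626d_co.AreaInDomains
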