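import Pool.Agent.X144.Fi.Mean

/-!
The area of the square-lattice self-avoiding polygons: the exponent of its stretched exponential
upper tail at any one intermediate scale is equivalent to the exponent of the correlation length of
the self-avoiding walk, upper and lower half separately, and a lower bound for the mean area gives
the lower half at all scales.
-/

set_option autoImplicit false

namespace Pool.Agent.Results.MP_f6626d_co.AreaTailExponent

open Filter Topology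

/-- a closed nearest-neighbour loop on `ℤ²` with `m` steps, rooted at the origin and oriented,
that visits no vertex twice -/
def IsLoop (m : ℕ) (f : ZMod m → ℤ × ℤ) : Prop :=
  f 0 = 0 ∧ Function.Injective f ∧
    ∀ i : ZMod m, |(f (i + 1)).1 - (f i).1| + |(f (i + 1)).2 - (f i).2| = 1

/-- the edge from `f k` to `f (k+1)` is horizontal, joins the columns `x = a` and `x = a + 1`, and
has height larger than `b`: it lies above the unit cell `[a, a+1] × [b, b+1]` -/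
def Above (m : ℕ) (f : ZMod m → ℤ × ℤ) (a b : ℤ) (k : ZMod m) : Prop :=
  (((f k).1 = a ∧ (f (k + 1)).1 = a + 1) ∨ ((f k).1 = a + 1 ∧ (f (k + 1)).1 = a)) ∧ b < (f k).2

/-- the unit cell `[a, a+1] × [b, b+1]` is enclosed by the loop: the vertical ray from the cell
upwards crosses an odd number of edges -/
def Encl (m : ℕ) (f : ZMod m → ℤ × ℤ) (c : ℤ × ℤ) : Prop :=
  Odd (Nat.card {k : ZMod m // Above m f c.1 c.2 k})

/-- the area: the number of unit cells enclosed by the loop -/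
noncomputable def area (m : ℕ) (f : ZMod m → ℤ × ℤ) : ℕ := Nat.card {c : ℤ × ℤ // Encl m f c}

/-- the proportion of the self-avoiding polygons of perimeter `2 n` with area at least `r` -/
noncomputable def large (n : ℕ) (r : ℝ) : ℝ :=
  ({f : ZMod (2 * n) → ℤ × ℤ | IsLoop (2 * n) f ∧ r ≤ area (2 * n) f}.ncard : ℝ) /
    ({f : ZMod (2 * n) → ℤ × ℤ | IsLoop (2 * n) f}.ncard : ℝ)

/-- the mean area of the self-avoiding polygons of perimeter `2 n`: the average of the area over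
the rooted oriented polygons. -/
noncomputable def A (n : ℕ) : ℝ :=
  (∑ᶠ f ∈ {f : ZMod (2 * n) → ℤ × ℤ | IsLoop (2 * n) f}, (area (2 * n) f : ℝ)) /
    ({f : ZMod (2 * n) → ℤ × ℤ | IsLoop (2 * n) f}.ncard : ℝ)

/-- `ω` is an `n`-step self-avoiding walk on `ℤ²` started at the origin. -/
def IsSAW (n : ℕ) (ω : Fin (n + 1) → ℤ × ℤ) : Prop :=
  ω 0 = (0, 0) ∧
  (∀ i : Fin n, |(ω i.succ).1 - (ω i.castSucc).1| + |(ω i.succ).2 - (ω i.castSucc).2| = 1) ∧
  Function.Injective ω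

/-- `c_n`: the number of `n`-step self-avoiding walks from the origin -/
noncomputable def c (n : ℕ) : ℕ := Nat.card {ω : Fin (n + 1) → ℤ × ℤ // IsSAW n ω}

/-- `c_n(x)`: the number of `n`-step self-avoiding walks from the origin to `x` -/
noncomputable def cx (n : ℕ) (x : ℤ × ℤ) : ℕ :=
  Nat.card {ω : Fin (n + 1) → ℤ × ℤ // IsSAW n ω ∧ ω (Fin.last n) = x}

/-- the two-point function `G_z(x) = ∑_n c_n(x) z^n` -/
noncomputable def G (z : ℝ) (x : ℤ × ℤ) : ℝ := ∑' n : ℕ, (cx n x : ℝ) * z ^ n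

theorem c_eq (n : ℕ) : c n = TH795.EP.c n := TH795.EP2.card_walks n

theorem cx_eq (n : ℕ) (x : ℤ × ℤ) : cx n x = TH795.EP.a n x.1 x.2 := TH795.EP2.card_walks_to n x

theorem G_eq (z : ℝ) (k : ℕ) : G z ((k : ℤ), 0) = Y981.L2.Gz z k 0 := by
  unfold G Y981.L2.Gz
  apply tsum_congr
  intro n
  rw [cx_eq]

theorem large_eq (n : ℕ) (r : ℝ) : large n r = Y981.L2.par n r := rfl

theorem A_eq (n : ℕ) : A n = Y981.L2.ma n := rfl

/-- **Theorem.** Let `μ = lim c_n^(1/n)`.  For `0 < z < 1/μ` the correlation length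
`ξ(z) = (lim_k - (1/k) log G_z((k, 0)))^(-1)` of the self-avoiding walk exists and is positive and
finite.  For all `0 < θ < a < 1`:
(1) `ξ(z) ≤ (1/μ - z)^(-θ-o(1))` as `z ↑ 1/μ` if and only if the proportion of the polygons of
perimeter `2 n` with area at least `n^(2a)` is at most `exp (- n^((a-θ)/(1-θ)-o(1)))` as `n → ∞`;
(2) `ξ(z) ≥ (1/μ - z)^(-θ+o(1))` as `z ↑ 1/μ` if and only if this proportion is at least
`exp (- n^((a-θ)/(1-θ)+o(1)))` as `n → ∞`;
(3) if the mean area is at least `n^(2θ-o(1))` as `n → ∞`, then this proportion is at least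
`exp (- n^((a-θ)/(1-θ)+o(1)))` as `n → ∞`. -/
theorem result : ∃ (μ : ℝ) (ξ : ℝ → ℝ), 0 < μ ∧
    Tendsto (fun n : ℕ => (c n : ℝ) ^ (1 / (n : ℝ))) atTop (𝓝 μ) ∧
    (∀ z : ℝ, 0 < z → z < 1 / μ → 0 < ξ z ∧
      Tendsto (fun k : ℕ => - Real.log (G z ((k : ℤ), 0)) / k) atTop (𝓝 (1 / ξ z))) ∧
    ∀ θ a : ℝ, 0 < θ → θ < a → a < 1 →
      ((∀ ε : ℝ, 0 < ε → ∀ᶠ z in 𝓝[<] (1 / μ), ξ z ≤ (1 / μ - z) ^ (-(θ + ε))) ↔
        (∀ ε : ℝ, 0 < ε → ∀ᶠ n : ℕ in atTop,
          large n ((n : ℝ) ^ (2 * a)) ≤ Real.exp (-(n : ℝ) ^ ((a - θ) / (1 - θ) - ε)))) ∧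
      ((∀ ε : ℝ, 0 < ε → ∀ᶠ z in 𝓝[<] (1 / μ), (1 / μ - z) ^ (-(θ - ε)) ≤ ξ z) ↔
        (∀ ε : ℝ, 0 < ε → ∀ᶠ n : ℕ in atTop,
          Real.exp (-(n : ℝ) ^ ((a - θ) / (1 - θ) + ε)) ≤ large n ((n : ℝ) ^ (2 * a)))) ∧
      ((∀ ε : ℝ, 0 < ε → ∀ᶠ n : ℕ in atTop, (n : ℝ) ^ (2 * θ - ε) ≤ A n) →
        (∀ ε : ℝ, 0 < ε → ∀ᶠ n : ℕ in atTop,
          Real.exp (-(n : ℝ) ^ ((a - θ) / (1 - θ) + ε)) ≤ large n ((n : ℝ) ^ (2 * a)))) := by
  refine ⟨H981.mu, Y981.L2.xi, H981.mu_pos, ?_, ?_, ?_⟩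
  · have h := H981.tendsto_root
    refine h.congr ?_
    intro n
    rw [c_eq, TH795.EP.c_eq]
  · intro z hz hz1
    have hmu := H981.mu_pos
    have he : 0 < -Real.log (z * H981.mu) := by
      have h1 : z * H981.mu < 1 := by rwa [lt_div_iff₀ hmu] at hz1
      have h2 := Real.log_neg (mul_pos hz hmu) h1
      linarith
    have hm := Y981.L2.mass_pos he
    constructor
    · unfold Y981.L2.xi
      positivity
    · have h := Y981.L2.G_tendsto hz hz1
      unfold Y981.L2.xi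
      rw [one_div_one_div]
      refine h.congr ?_
      intro k
      rw [G_eq]
  · intro θ a h0 ha ha1
    have h1 : θ < 1 := ha.trans ha1
    obtain ⟨C, K, hC⟩ := X144.Fi.cmp_par
    obtain ⟨-, hU2⟩ := X144.Fi.fisher_up h0 h1
    obtain ⟨-, hL2⟩ := X144.Fi.fisher_low h0 h1
    obtain ⟨hU3, hU4⟩ := X144.Fi.fisher_up_gen hC h0 h1
    obtain ⟨hL3, hL4⟩ := X144.Fi.fisher_low_gen hC h0 h1
    rw [← Y981.L2.xi_upper θ h0, ← Y981.L2.xi_lower θ h0]
    have hsq : ∀ n : ℕ, large n ((n : ℝ) ^ (2 * a)) = Y981.L2.par n (((n : ℝ) ^ a) ^ 2) := by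
      intro n
      rw [large_eq, Y981.L2.rpow_sq (Nat.cast_nonneg n)]
    simp only [hsq, A_eq]
    exact ⟨⟨fun M => hU3 (hU2.1 M) a ha ha1, fun A => hU2.2 (hU4 a ha ha1 A)⟩,
      ⟨fun M => hL3 (hL2.1 M) a ha ha1, fun A => hL2.2 (hL4 a ha ha1 A)⟩,
      fun A => hL3 (X144.Fi.rateLow_of_ma h0 h1 A) a ha ha1⟩

end Pool.Agent.Results.MP_f6626d_co.AreaTailExponent
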