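import Pool.Agent.X144.Hm.Expo

/-!
The area of the square-lattice self-avoiding polygons: its high moments, of all orders between
`log² n` and `δ n`, are determined up to constants by the correlation length of the self-avoiding
walk.
-/

set_option autoImplicit false

namespace Pool.Agent.Results.MP_f6626d_co.HighMoments

open Filter Topology

/-- a closed nearest-neighbour loop on `ℤ²` with `m` steps, rooted at the origin and oriented,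
that visits no vertex twice -/
def IsLoop (m : ℕ) (f : ZMod m → ℤ × ℤ) : Prop :=
  f 0 = 0 ∧ Function.Injective f ∧
    ∀ i : ZMod m, |(f (i + 1)).1 - (f i).1| + |(f (i + 1)).2 - (f i).2| = 1

/-- the edge from `f k` to `f (k+1)` is horizontal, joins the columns `x = a` and `x = a + 1`, and
has height larger than `b`: it lies above the unit cell `[a, a+1] × [b, b+1]` -/
def Above (m : ℕ) (f : ZMod m → ℤ × ℤ) (a b : ℤ) (k : ZMod m) : Prop :=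
  (((f k).1 = a ∧ (f (k + 1)).1 = a + 1) ∨ ((f k).1 = a + 1 ∧ (f (k + 1)).1 = a)) ∧ b < (f k).2

/-- the unit cell `[a, a+1] × [b, b+1]` is enclosed by the loop: the vertical ray from the cell
upwards crosses an odd number of edges -/
def Encl (m : ℕ) (f : ZMod m → ℤ × ℤ) (c : ℤ × ℤ) : Prop :=
  Odd (Nat.card {k : ZMod m // Above m f c.1 c.2 k})

/-- the area: the number of unit cells enclosed by the loop -/
noncomputable def area (m : ℕ) (f : ZMod m → ℤ × ℤ) : ℕ := Nat.card {c : ℤ × ℤ // Encl m f c}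

/-- all the cells of some square of `k × k` cells are enclosed by the loop -/
def HasSq (m : ℕ) (f : ZMod m → ℤ × ℤ) (k : ℕ) : Prop :=
  ∃ a0 b0 : ℤ, ∀ a b : ℤ, 0 ≤ a → a < k → 0 ≤ b → b < k → Encl m f (a0 + a, b0 + b)

/-- the side of the largest square of unit cells enclosed by the loop -/
noncomputable def side (m : ℕ) (f : ZMod m → ℤ × ℤ) : ℕ := sSup {k : ℕ | HasSq m f k}

/-- the average over the (rooted oriented) self-avoiding polygons of perimeter `2 n` -/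
noncomputable def av (n : ℕ) (g : (ZMod (2 * n) → ℤ × ℤ) → ℝ) : ℝ :=
  (∑ᶠ f ∈ {f : ZMod (2 * n) → ℤ × ℤ | IsLoop (2 * n) f}, g f) /
    ({f : ZMod (2 * n) → ℤ × ℤ | IsLoop (2 * n) f}.ncard : ℝ)

/-- the moment of order `k` of the area of the self-avoiding polygons of perimeter `2 n` -/
noncomputable def M (n k : ℕ) : ℝ := av n (fun f => (area (2 * n) f : ℝ) ^ k)

/-- the moment of order `k` of the side of the largest enclosed square -/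
noncomputable def S (n k : ℕ) : ℝ := av n (fun f => (side (2 * n) f : ℝ) ^ k)

/-- `ω` is an `n`-step self-avoiding walk on `ℤ²` started at the origin. -/
def IsSAW (n : ℕ) (ω : Fin (n + 1) → ℤ × ℤ) : Prop :=
  ω 0 = (0, 0) ∧
  (∀ i : Fin n, |(ω i.succ).1 - (ω i.castSucc).1| + |(ω i.succ).2 - (ω i.castSucc).2| = 1) ∧
  Function.Injective ω

/-- `c_n`: the number of `n`-step self-avoiding walks from the origin -/
noncomputable def c (n : ℕ) : ℕ := Nat.card {ω : Fin (n + 1) → ℤ × ℤ // IsSAW n ω}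

/-- `c_n(x)`: the number of `n`-step self-avoiding walks from the origin to `x` -/
noncomputable def cx (n : ℕ) (x : ℤ × ℤ) : ℕ :=
  Nat.card {ω : Fin (n + 1) → ℤ × ℤ // IsSAW n ω ∧ ω (Fin.last n) = x}

/-- the two-point function `G_z(x) = ∑_n c_n(x) z^n` -/
noncomputable def G (z : ℝ) (x : ℤ × ℤ) : ℝ := ∑' n : ℕ, (cx n x : ℝ) * z ^ n

theorem c_eq (n : ℕ) : c n = TH795.EP.c n := TH795.EP2.card_walks n

theorem cx_eq (n : ℕ) (x : ℤ × ℤ) : cx n x = TH795.EP.a n x.1 x.2 := TH795.EP2.card_walks_to n x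

theorem G_eq (z : ℝ) (k : ℕ) : G z ((k : ℤ), 0) = Y981.L2.Gz z k 0 := by
  unfold G Y981.L2.Gz
  apply tsum_congr
  intro n
  rw [cx_eq]

theorem M_eq (n k : ℕ) : M n k = X144.Hm.mom n k := rfl

theorem S_eq (n k : ℕ) : S n k = X144.Hm.smom n k := rfl

/-- **Theorem.** Let `μ = lim c_n^(1/n)`.  For `0 < z < 1/μ` the correlation length
`ξ(z) = (lim_k - (1/k) log G_z((k, 0)))^(-1)` of the self-avoiding walk exists and is positive and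
finite.  Let `A` be the area and `ρ` the side of the largest enclosed square of a uniform polygon of
perimeter `2 n`.
(1) There are `C ≥ 1` and `δ > 0` such that for all `n ≥ 2` and all `k` between `log² n` and `δ n`,
with `ξ = ξ(exp(-k/n)/μ)`, `(k ξ / C)^(2k) ≤ E ρ^(2k) ≤ E A^k ≤ (C k ξ)^(2k)`.
Let `0 < b < 1`, `k = ⌈n^b⌉` and `θ > 0`.
(2) `ξ(z) ≤ (1/μ - z)^(-θ-o(1))` as `z ↑ 1/μ` iff `(E A^k)^(1/(2k)) ≤ n^(b+θ(1-b)+o(1))` as
`n → ∞`, and iff `(E ρ^(2k))^(1/(2k)) ≤ n^(b+θ(1-b)+o(1))`.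
(3) `ξ(z) ≥ (1/μ - z)^(-θ+o(1))` as `z ↑ 1/μ` iff `(E A^k)^(1/(2k)) ≥ n^(b+θ(1-b)-o(1))` as
`n → ∞`, and iff `(E ρ^(2k))^(1/(2k)) ≥ n^(b+θ(1-b)-o(1))`.
(4) Unconditionally `(E ρ^(2k))^(1/(2k)) ≥ n^((1+b)/2-o(1))`. -/
theorem result : ∃ (μ : ℝ) (ξ : ℝ → ℝ), 0 < μ ∧
    Tendsto (fun n : ℕ => (c n : ℝ) ^ (1 / (n : ℝ))) atTop (𝓝 μ) ∧
    (∀ z : ℝ, 0 < z → z < 1 / μ → 0 < ξ z ∧
      Tendsto (fun k : ℕ => - Real.log (G z ((k : ℤ), 0)) / k) atTop (𝓝 (1 / ξ z))) ∧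
    (∃ C δ : ℝ, 1 ≤ C ∧ 0 < δ ∧ ∀ n : ℕ, 2 ≤ n → ∀ k : ℕ, Real.log n ^ 2 ≤ k → (k : ℝ) ≤ δ * n →
      (k * ξ (Real.exp (-((k : ℝ) / n)) / μ) / C) ^ (2 * k) ≤ S n (2 * k) ∧
      S n (2 * k) ≤ M n k ∧
      M n k ≤ (C * (k * ξ (Real.exp (-((k : ℝ) / n)) / μ))) ^ (2 * k)) ∧
    ∀ b : ℝ, 0 < b → b < 1 →
      (∀ θ : ℝ, 0 < θ →
        ((∀ ε : ℝ, 0 < ε → ∀ᶠ z in 𝓝[<] (1 / μ), ξ z ≤ (1 / μ - z) ^ (-(θ + ε))) ↔
          (∀ ε : ℝ, 0 < ε → ∀ᶠ n : ℕ in atTop,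
            M n ⌈(n : ℝ) ^ b⌉₊ ^ (1 / (2 * (⌈(n : ℝ) ^ b⌉₊ : ℝ))) ≤
              (n : ℝ) ^ (b + θ * (1 - b) + ε))) ∧
        ((∀ ε : ℝ, 0 < ε → ∀ᶠ z in 𝓝[<] (1 / μ), ξ z ≤ (1 / μ - z) ^ (-(θ + ε))) ↔
          (∀ ε : ℝ, 0 < ε → ∀ᶠ n : ℕ in atTop,
            S n (2 * ⌈(n : ℝ) ^ b⌉₊) ^ (1 / (2 * (⌈(n : ℝ) ^ b⌉₊ : ℝ))) ≤
              (n : ℝ) ^ (b + θ * (1 - b) + ε))) ∧
        ((∀ ε : ℝ, 0 < ε → ∀ᶠ z in 𝓝[<] (1 / μ), (1 / μ - z) ^ (-(θ - ε)) ≤ ξ z) ↔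
          (∀ ε : ℝ, 0 < ε → ∀ᶠ n : ℕ in atTop, (n : ℝ) ^ (b + θ * (1 - b) - ε) ≤
            M n ⌈(n : ℝ) ^ b⌉₊ ^ (1 / (2 * (⌈(n : ℝ) ^ b⌉₊ : ℝ))))) ∧
        ((∀ ε : ℝ, 0 < ε → ∀ᶠ z in 𝓝[<] (1 / μ), (1 / μ - z) ^ (-(θ - ε)) ≤ ξ z) ↔
          (∀ ε : ℝ, 0 < ε → ∀ᶠ n : ℕ in atTop, (n : ℝ) ^ (b + θ * (1 - b) - ε) ≤
            S n (2 * ⌈(n : ℝ) ^ b⌉₊) ^ (1 / (2 * (⌈(n : ℝ) ^ b⌉₊ : ℝ)))))) ∧
      (∀ ε : ℝ, 0 < ε → ∀ᶠ n : ℕ in atTop, (n : ℝ) ^ ((1 + b) / 2 - ε) ≤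
        S n (2 * ⌈(n : ℝ) ^ b⌉₊) ^ (1 / (2 * (⌈(n : ℝ) ^ b⌉₊ : ℝ)))) := by
  have hmu := H981.mu_pos
  refine ⟨H981.mu, Y981.L2.xi, hmu, ?_, ?_, ?_, ?_⟩
  · have h := H981.tendsto_root
    refine h.congr ?_
    intro n
    rw [c_eq, TH795.EP.c_eq]
  · intro z hz hz1
    have he : 0 < -Real.log (z * H981.mu) := by
      have h1 : z * H981.mu < 1 := by rwa [lt_div_iff₀ hmu] at hz1
      have h2 := Real.log_neg (mul_pos hz hmu) h1
      linarith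
    have hm := Y981.L2.mass_pos he
    constructor
    · unfold Y981.L2.xi
      positivity
    · have h := Y981.L2.G_tendsto hz hz1
      unfold Y981.L2.xi
      rw [one_div_one_div]
      refine h.congr ?_
      intro k
      rw [G_eq]
  · obtain ⟨C, δ, hC, hδ, h⟩ := X144.Hm.moments
    refine ⟨C, δ, hC, hδ, fun n hn k hk hkn => ?_⟩
    have hxi : Y981.L2.xi (Real.exp (-((k : ℝ) / n)) / H981.mu) = 1 / Y981.L2.mass ((k : ℝ) / n) := by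
      unfold Y981.L2.xi
      rw [div_mul_cancel₀ _ hmu.ne', Real.log_exp, neg_neg]
    obtain ⟨h1, h2, h3⟩ := h n hn k hk hkn
    rw [hxi, mul_one_div, S_eq, M_eq]
    exact ⟨h1, h2, h3⟩
  · intro b hb0 hb1
    obtain ⟨h1, h2⟩ := X144.Hm.sand_both hb0 hb1
    refine ⟨fun θ hθ => ?_, ?_⟩
    · rw [← Y981.L2.xi_upper θ hθ, ← Y981.L2.xi_lower θ hθ]
      exact ⟨X144.Hm.low_iff hb0 hb1 hθ h1, X144.Hm.low_iff hb0 hb1 hθ h2,
        X144.Hm.up_iff hb0 hb1 hθ h1, X144.Hm.up_iff hb0 hb1 hθ h2⟩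
    · have h3 := (X144.Hm.up_iff hb0 hb1 (by norm_num : (0 : ℝ) < 1 / 2) h2).1 X144.Hm.massUp_half
      intro ε hε
      filter_upwards [h3 ε hε] with n hn
      have e : (1 + b) / 2 - ε = b + 1 / 2 * (1 - b) - ε := by ring
      rw [e]
      exact hn

end Pool.Agent.Results.MP_f6626d_co.HighMoments
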