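import Pool.Agent.X315.PolyBias
import Pool.Agent.TH303.LTwo

/-!
Area laws of square-lattice self-avoiding polygons with marked cells (and columns, and pairs of
vertices): the law of the area under the bias `area^a width^b gyr^d`, where `gyr` is the squared
radius of gyration, changes by `O((log n) / n^(1/2))` from the perimeter `2 n` to `2 n + 2`,
uniformly over all scales, and its convergence along sparse sequences implies its convergence.
-/

open Filter Topology MeasureTheory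

namespace Pool.Agent.Results.MP_f6626d_co.MarkedCells

/-- a closed nearest-neighbour loop on `ℤ²` with `m` steps, rooted at the origin and oriented,
that visits no vertex twice -/
def IsLoop (m : ℕ) (f : ZMod m → ℤ × ℤ) : Prop :=
  f 0 = 0 ∧ Function.Injective f ∧
    ∀ i : ZMod m, |(f (i + 1)).1 - (f i).1| + |(f (i + 1)).2 - (f i).2| = 1

/-- the width (horizontal extent) of a loop -/
noncomputable def width (m : ℕ) (f : ZMod m → ℤ × ℤ) : ℕ :=
  sSup {w : ℕ | ∃ i j, w = ((f i).1 - (f j).1).natAbs}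

/-- the edge from `f k` to `f (k+1)` is horizontal, joins the columns `x = a` and `x = a + 1`, and
has height larger than `b`: it lies above the unit cell `[a, a+1] × [b, b+1]` -/
def Above (m : ℕ) (f : ZMod m → ℤ × ℤ) (a b : ℤ) (k : ZMod m) : Prop :=
  (((f k).1 = a ∧ (f (k + 1)).1 = a + 1) ∨ ((f k).1 = a + 1 ∧ (f (k + 1)).1 = a)) ∧ b < (f k).2

/-- the unit cell `[a, a+1] × [b, b+1]` is enclosed by the loop: the vertical ray from the cell
upwards crosses an odd number of edges -/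
def Encl (m : ℕ) (f : ZMod m → ℤ × ℤ) (c : ℤ × ℤ) : Prop :=
  Odd (Nat.card {k : ZMod m // Above m f c.1 c.2 k})

/-- the area: the number of unit cells enclosed by the loop -/
noncomputable def area (m : ℕ) (f : ZMod m → ℤ × ℤ) : ℕ := Nat.card {c : ℤ × ℤ // Encl m f c}

/-- the square of the radius of gyration of the `m` vertices:
`(1 / (2 m²)) ∑_{i, j} |f i - f j|²` -/
noncomputable def gyr (m : ℕ) (f : ZMod m → ℤ × ℤ) : ℝ :=
  (∑ᶠ i, ∑ᶠ j, ((((f i).1 - (f j).1 : ℤ) : ℝ) ^ 2 + (((f i).2 - (f j).2 : ℤ) : ℝ) ^ 2)) /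
    (2 * (m : ℝ) ^ 2)

/-- expectation under the uniform law on the (rooted, oriented) self-avoiding polygons of
perimeter `2 n` -/
noncomputable def E (n : ℕ) (F : (ZMod (2 * n) → ℤ × ℤ) → ℝ) : ℝ :=
  (∑ᶠ f ∈ {f : ZMod (2 * n) → ℤ × ℤ | IsLoop (2 * n) f}, F f) /
    ({f : ZMod (2 * n) → ℤ × ℤ | IsLoop (2 * n) f}.ncard : ℝ)

/-- the bias `area^a width^b gyr^d` (for `b = d = 0`: `a` marked enclosed cells) -/
noncomputable def bias (a b d n : ℕ) (f : ZMod (2 * n) → ℤ × ℤ) : ℝ :=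
  (area (2 * n) f : ℝ) ^ a * (width (2 * n) f : ℝ) ^ b * gyr (2 * n) f ^ d

/-- expectation under the law of the polygons of perimeter `2 n` with weights proportional to
`bias a b d n` -/
noncomputable def EB (a b d n : ℕ) (F : (ZMod (2 * n) → ℤ × ℤ) → ℝ) : ℝ :=
  E n (fun f => bias a b d n f * F f) / E n (bias a b d n)

/-- the mean area under the biased law -/
noncomputable def mean (a b d n : ℕ) : ℝ := EB a b d n (fun f => (area (2 * n) f : ℝ))

/-- the expectation of `g (area / t)` under the biased law -/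
noncomputable def L (a b d n : ℕ) (g : ℝ → ℝ) (t : ℝ) : ℝ :=
  EB a b d n (fun f => g ((area (2 * n) f : ℝ) / t))

open Pool.Agent.W387.Q in
theorem E_eq {n : ℕ} (hn : 2 ≤ n) (a b d : ℕ) (h : ℝ → ℝ) :
    E n (fun f => bias a b d n f * h (area (2 * n) f : ℝ)) =
      PJ.av n (fun w => PM.mon a b d w * h (Pool.Agent.H739K.ar w : ℝ)) /
        (8 * (n : ℝ) ^ 2) ^ d := by
  have h1 : E n (fun f => bias a b d n f * h (area (2 * n) f : ℝ)) =
      Pool.Agent.H739K.me n (fun f => bias a b d n f * h (area (2 * n) f : ℝ)) := rfl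
  rw [h1, PJ.me_av hn, ← PJ.av_div]
  refine PJ.av_congr fun w hw => ?_
  have e1 : (area (2 * n) (Pool.Agent.H739K.lp (2 * n) w) : ℝ) = (Pool.Agent.H739K.ar w : ℝ) := by
    rw [Pool.Agent.H739K.F4x.ar_eq hn hw]
    rfl
  have e2 : (width (2 * n) (Pool.Agent.H739K.lp (2 * n) w) : ℝ) = (PJ.wd w : ℝ) := by
    rw [(PJ.wd_eq hn hw).1]
    rfl
  have e3 : gyr (2 * n) (Pool.Agent.H739K.lp (2 * n) w) =
      Pool.Agent.X315.PG.G w / (8 * (n : ℝ) ^ 2) := PJ.gyr_eq hn hw
  unfold bias PM.mon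
  rw [e1, e2, e3, div_pow]
  ring

open Pool.Agent.W387.Q in
theorem bias_eq {n : ℕ} (hn : 2 ≤ n) (a b d : ℕ) :
    E n (bias a b d n) = PJ.av n (PM.mon a b d) / (8 * (n : ℝ) ^ 2) ^ d := by
  have h := E_eq hn a b d (fun _ => 1)
  simpa only [mul_one] using h

open Pool.Agent.W387.Q in
theorem mean_eq {n : ℕ} (hn : 2 ≤ n) (a b d : ℕ) : mean a b d n = PB.mb a b d n := by
  have hn0 : (0 : ℝ) < n := by
    have : 0 < n := by omega
    exact_mod_cast this
  have hc : (8 * (n : ℝ) ^ 2) ^ d ≠ 0 := by positivity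
  have h := E_eq hn a b d (fun x => x)
  unfold mean EB PB.mb
  rw [h, bias_eq hn, div_div_div_cancel_right₀ hc]
  congr 1
  refine PJ.av_congr fun w _ => ?_
  rw [PB.mon_succ]

open Pool.Agent.W387.Q in
theorem L_eq {n : ℕ} (hn : 2 ≤ n) (a b d : ℕ) (g : ℝ → ℝ) (t : ℝ) :
    L a b d n g t = PB.LX a b d n g t := by
  have hn0 : (0 : ℝ) < n := by
    have : 0 < n := by omega
    exact_mod_cast this
  have hc : (8 * (n : ℝ) ^ 2) ^ d ≠ 0 := by positivity
  have h := E_eq hn a b d (fun x => g (x / t))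
  unfold L EB PB.LX
  rw [h, bias_eq hn, div_div_div_cancel_right₀ hc]

/-- **Theorem.** Let `a, b, d` be natural numbers, `P_n` the law of the self-avoiding polygons of
perimeter `2 n` with weights proportional to `area^a width^b gyr^d`, `m_n` the mean area under
`P_n`.
(1) There is `K` such that for all `n ≥ 2`, all real `t ≥ n / 2` and all `g : ℝ → [-1, 1]` with
Lipschitz constant `1`, the expectations of `g (area / t)` under `P_n` and `P_{n+1}` differ by at
most `K (log n) / n^(1/2)`.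
(2) The same for the expectations of `g (area / m_n)` under `P_n` and `g (area / m_{n+1})` under
`P_{n+1}`.
(3) Let `s_k → ∞` be a sequence of integers with `(s_{k+1} - s_k) (log s_k) / s_k^(1/2) → 0` and
`ν` a Borel probability measure on `ℝ`.  If the law of `area / m_n` under `P_n` converges weakly to
`ν` along `n = s_k`, then along all `n`. -/
theorem result (a b d : ℕ) :
    (∃ K : ℝ, ∀ n : ℕ, 2 ≤ n → ∀ t : ℝ, (n : ℝ) / 2 ≤ t → ∀ g : ℝ → ℝ,
      (∀ x y, |g x - g y| ≤ |x - y|) → (∀ x, |g x| ≤ 1) →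
        |L a b d (n + 1) g t - L a b d n g t| ≤ K * (Real.log n / Real.sqrt n)) ∧
    (∃ K : ℝ, ∀ n : ℕ, 2 ≤ n → ∀ g : ℝ → ℝ,
      (∀ x y, |g x - g y| ≤ |x - y|) → (∀ x, |g x| ≤ 1) →
        |L a b d (n + 1) g (mean a b d (n + 1)) - L a b d n g (mean a b d n)| ≤
          K * (Real.log n / Real.sqrt n)) ∧
    ∀ s : ℕ → ℕ, Tendsto s atTop atTop →
      Tendsto (fun k => ((s (k + 1) : ℝ) - s k) * (Real.log (s k) / Real.sqrt (s k)))
        atTop (𝓝 0) →
      ∀ ν : Measure ℝ, IsProbabilityMeasure ν →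
      (∀ g : ℝ → ℝ, Continuous g → (∃ C, ∀ x, |g x| ≤ C) →
        Tendsto (fun k => L a b d (s k) g (mean a b d (s k))) atTop (𝓝 (∫ x, g x ∂ν))) →
      ∀ g : ℝ → ℝ, Continuous g → (∃ C, ∀ x, |g x| ≤ C) →
        Tendsto (fun n => L a b d n g (mean a b d n)) atTop (𝓝 (∫ x, g x ∂ν)) := by
  refine ⟨?_, ?_, fun s hs hgap' ν hν h g hg hgb => ?_⟩
  · obtain ⟨K, -, hK⟩ := Pool.Agent.W387.Q.PB.scales a b d
    refine ⟨K, fun n hn t ht g h1 h2 => ?_⟩
    rw [← Pool.Agent.TH508.LT.rN_eq hn, L_eq hn, L_eq (by omega)]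
    exact hK n hn t ht g h1 h2
  · obtain ⟨K, -, hK⟩ := Pool.Agent.W387.Q.PB.merge a b d
    refine ⟨K, fun n hn g h1 h2 => ?_⟩
    rw [← Pool.Agent.TH508.LT.rN_eq hn, L_eq hn, L_eq (by omega), mean_eq hn, mean_eq (by omega)]
    exact hK n hn g h1 h2
  · have hgap := Pool.Agent.TH303.LTwo.gap s hs hgap'
    have h2 := Pool.Agent.W387.Q.PB.weakX a b d s hs hgap ν (fun g hg hgb => by
      refine (h g hg hgb).congr' ?_
      filter_upwards [hs.eventually (eventually_ge_atTop 2)] with k hk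
      rw [L_eq hk, mean_eq hk]) g hg hgb
    refine h2.congr' ?_
    filter_upwards [eventually_ge_atTop 2] with n hn
    rw [L_eq hn, mean_eq hn]

end Pool.Agent.Results.MP_f6626d_co.MarkedCells
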